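import Mathlib

set_option autoImplicit false

open Filter Topology Function Set

namespace Pool.Agent.Results.MP_a8308c_an.Yes

def M (j : ℕ) : ℕ := 100 ^ (j + 1)

def O (j o : ℕ) : Prop := o = 0 ∨ o = 3 * M j ∨ o = 4 * M j ∨ o = 5 * M j + 1

def P : ℕ → ℕ → Prop
  | 0, a => a = 0
  | j + 1, a => ∃ o r, O j o ∧ P j r ∧ a = o + r

def A (a : ℕ) : Prop := ∃ j, P j a

theorem M_succ (j : ℕ) : M (j + 1) = 100 * M j := by simp [M, pow_succ, mul_comm]

theorem M_ge (j : ℕ) : 100 ≤ M j := by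
  induction j with
  | zero => simp [M]
  | succ j ih => rw [M_succ]; omega

theorem M_gt (j : ℕ) : j < M j := by
  induction j with
  | zero => simp [M]
  | succ j ih => rw [M_succ]; omega

theorem P_le : ∀ j a, P j a → 16 * a ≤ M j
  | 0, a, h => by simp only [P] at h; omega
  | j + 1, a, ⟨o, r, h1, h2, h3⟩ => by
    have := P_le j r h2
    have := M_ge j
    rw [M_succ]
    rcases h1 with h | h | h | h <;> omega

theorem P_no : ∀ j a b c, P j a → P j b → P j c → c ≠ a + b + 1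
  | 0, a, b, c, h1, h2, h3 => by simp only [P] at h1 h2 h3; omega
  | j + 1, a, b, c, ⟨o, r, h1, h2, h3⟩, ⟨o', r', h4, h5, h6⟩, ⟨o'', r'', h7, h8, h9⟩ => by
    have := P_le j r h2
    have := P_le j r' h5
    have := P_le j r'' h8
    have := M_ge j
    have := P_no j r r' r'' h2 h5 h8
    rcases h1 with h | h | h | h <;> rcases h4 with h | h | h | h <;>
      rcases h7 with h | h | h | h <;> omega

theorem P_mono {j k a : ℕ} (h : j ≤ k) (p : P j a) : P k a := by
  induction h with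
  | refl => exact p
  | step _ ih => exact ⟨0, a, Or.inl rfl, ih, by simp⟩

theorem A_no {a b c : ℕ} : A a → A b → A c → c ≠ a + b + 1 := fun ⟨i, h1⟩ ⟨j, h2⟩ ⟨k, h3⟩ =>
  P_no (i + j + k) a b c (P_mono (by omega) h1) (P_mono (by omega) h2) (P_mono (by omega) h3)

theorem A_iff {j a : ℕ} (h : a < M j) : A a ↔ P j a := by
  refine ⟨fun ⟨k, p⟩ => ?_, fun p => ⟨j, p⟩⟩
  rcases le_total k j with l | l
  · exact P_mono l p
  induction l with
  | refl => exact p
  | @step m l ih =>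
    obtain ⟨o, r, h1, h2, h3⟩ := p
    have : M j ≤ M m := Nat.pow_le_pow_right (by norm_num) (by simpa using l)
    have : o = 0 := by rcases h1 with h | h | h | h <;> omega
    exact ih (by rwa [h3, this, zero_add])

theorem A_add {j o i : ℕ} (ho : O j o) (h : i < M j) : A (o + i) ↔ A i := by
  have := M_ge j
  rw [A_iff h, A_iff (j := j + 1) (by rw [M_succ]; rcases ho with h | h | h | h <;> omega)]
  refine ⟨fun ⟨o', r, h1, h2, h3⟩ => ?_, fun p => ⟨o, i, ho, p, rfl⟩⟩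
  have := P_le j r h2
  rwa [show i = r by rcases ho with h | h | h | h <;> rcases h1 with h | h | h | h <;> omega]

def G (J K s : ℕ) : Prop := (∀ i < M J, A (s + i) ↔ A i) ∧ s + M J ≤ M K

theorem G.step {J K s o : ℕ} (h : G J K s) (ho : O K o) : G J (K + 1) (o + s) := by
  have := M_ge K
  have := h.2
  refine ⟨fun i hi => ?_, by rw [M_succ]; rcases ho with h | h | h | h <;> omega⟩
  rw [add_assoc, A_add ho (by omega), h.1 i hi]

theorem four (J t : ℕ) : ∃ K a b c d, G J K a ∧ G J K b ∧ G J K c ∧ G J K d ∧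
    b + c = a + d + t ∧ a + M J ≤ b ∧ c + M J ≤ d := by
  induction t with
  | zero =>
    have g : G J J 0 := ⟨fun i _ => by rw [zero_add], by omega⟩
    exact ⟨J + 1, _, _, _, _, g.step (Or.inl rfl), g.step (Or.inr (Or.inl rfl)),
      g.step (Or.inl rfl), g.step (Or.inr (Or.inl rfl)), by omega, by omega, by omega⟩
  | succ t ih =>
    obtain ⟨K, a, b, c, d, h1, h2, h3, h4, h5, h6, h7⟩ := ih
    exact ⟨K + 1, _, _, _, _, h1.step (Or.inr (Or.inr (Or.inl rfl))),
      h2.step (Or.inr (Or.inr (Or.inr rfl))), h3.step (Or.inr (Or.inl rfl)),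
      h4.step (Or.inr (Or.inr (Or.inl rfl))), by omega, by omega, by omega⟩

open Classical in
noncomputable def e0 (n : ℕ) : ℕ → Bool := fun i => decide (A (n + i))

abbrev X := closure (range e0)

def T (y : X) : X := ⟨fun i => y.1 (i + 1), map_mem_closure (f := fun z : ℕ → Bool => fun i =>
  z (i + 1)) (by fun_prop) y.2 (by
    rintro _ ⟨n, rfl⟩
    exact ⟨n + 1, funext fun i => by unfold e0; rw [add_assoc, add_comm 1 i]⟩)⟩

noncomputable def e (n : ℕ) : X := ⟨e0 n, subset_closure ⟨n, rfl⟩⟩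

theorem T_it (y : X) (n i : ℕ) : (T^[n] y).1 i = y.1 (i + n) := by
  induction n generalizing i with
  | zero => rfl
  | succ n ih => rw [iterate_succ_apply']; exact (ih (i + 1)).trans (by rw [add_assoc, add_comm 1 n])

theorem T_e (n k : ℕ) : T^[k] (e n) = e (n + k) :=
  Subtype.ext (funext fun i => by rw [T_it]; unfold e e0; dsimp only; rw [add_assoc, add_comm k i])

theorem e_dense : DenseRange e := by
  rw [DenseRange, Subtype.dense_iff, ← range_comp]
  exact subset_rfl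

theorem ev (i : ℕ) : Continuous fun z : X => z.1 i :=
  (continuous_apply i).comp continuous_subtype_val

theorem T_cont : Continuous T := Continuous.subtype_mk (continuous_pi fun _ => ev _) _

theorem nb {U : Set X} (hU : IsOpen U) (h : U.Nonempty) :
    ∃ n, ∀ᶠ J in atTop, n < M J ∧ ∀ K s, G J K s → e (s + n) ∈ U := by
  obtain ⟨n, hn⟩ := e_dense.exists_mem_open hU h
  refine ⟨n, ?_⟩
  obtain ⟨V, hV, rfl⟩ := isOpen_induced_iff.1 hU
  obtain ⟨I, u, h1, h2⟩ := isOpen_pi_iff.1 hV _ hn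
  filter_upwards [eventually_ge_atTop (n + I.sup id)] with J hJ
  have := M_gt J
  refine ⟨by omega, fun K s g => h2 fun i hi => ?_⟩
  have : i ≤ I.sup id := Finset.le_sup (f := id) hi
  have k : (e (s + n)).1 i = (e n).1 i := by
    unfold e e0
    dsimp only
    rw [add_assoc, g.1 (n + i) (by omega)]
  rw [k]
  exact (h1 i hi).2

theorem mix {U V : Set (X × X)} (hU : IsOpen U) (h : U.Nonempty) (hV : IsOpen V)
    (h' : V.Nonempty) : ∃ p ∈ U, ∃ k, (Prod.map T T)^[k] p ∈ V := by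
  obtain ⟨⟨x, y⟩, h⟩ := h
  obtain ⟨⟨x', y'⟩, h'⟩ := h'
  obtain ⟨U1, U2, u1, u2, u3, u4, u5⟩ := isOpen_prod_iff.1 hU x y h
  obtain ⟨V1, V2, v1, v2, v3, v4, v5⟩ := isOpen_prod_iff.1 hV x' y' h'
  obtain ⟨n1, a1⟩ := nb u1 ⟨_, u3⟩
  obtain ⟨n2, a2⟩ := nb u2 ⟨_, u4⟩
  obtain ⟨m1, a3⟩ := nb v1 ⟨_, v3⟩
  obtain ⟨m2, a4⟩ := nb v2 ⟨_, v4⟩
  obtain ⟨J, ⟨⟨b1, c1⟩, b2, c2⟩, ⟨b3, c3⟩, b4, c4⟩ := ((a1.and a2).and (a3.and a4)).exists
  have : ∃ K a b c d k, G J K a ∧ G J K b ∧ G J K c ∧ G J K d ∧ a + n1 + k = b + m1 ∧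
      c + n2 + k = d + m2 := by
    rcases le_total (m1 + n2) (m2 + n1) with l | l
    · obtain ⟨K, a, b, c, d, h1, h2, h3, h4, h5, h6, h7⟩ := four J (m2 + n1 - (m1 + n2))
      exact ⟨K, a, b, c, d, b + m1 - (a + n1), h1, h2, h3, h4, by omega, by omega⟩
    · obtain ⟨K, a, b, c, d, h1, h2, h3, h4, h5, h6, h7⟩ := four J (m1 + n2 - (m2 + n1))
      exact ⟨K, c, d, a, b, d + m1 - (c + n1), h3, h4, h1, h2, by omega, by omega⟩
  obtain ⟨K, a, b, c, d, k, h1, h2, h3, h4, h5, h6⟩ := this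
  refine ⟨(e (a + n1), e (c + n2)), u5 ⟨c1 K a h1, c2 K c h3⟩, k, v5 ?_⟩
  rw [Prod.map_iterate, Prod.map_apply, T_e, T_e, h5, h6]
  exact ⟨c3 K b h2, c4 K d h4⟩

theorem result : ∃ (X : Type) (_ : MetricSpace X) (_ : CompactSpace X) (T : X → X),
    Continuous T ∧ Surjective T ∧
    (∃ p : X × X, DenseRange fun n : ℕ => (Prod.map T T)^[n] p) ∧
    ∃ x : X, (DenseRange fun n : ℕ => T^[n] x) ∧
      ∀ y : X, ¬ DenseRange fun n : ℕ => (Prod.map T T)^[n] (x, y) := by
  have hc : CompactSpace X := isCompact_iff_compactSpace.1 isClosed_closure.isCompact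
  have g0 : ∀ J, G J (J + 1) (3 * M J + 0) := fun J =>
    G.step ⟨fun i _ => by rw [zero_add], by omega⟩ (Or.inr (Or.inl rfl))
  have a0 : A 0 := ⟨0, rfl⟩
  refine ⟨X, TopologicalSpace.metrizableSpaceMetric X, hc, T, T_cont, ?_, ?_, e 0, ?_, ?_⟩
  · rw [← range_eq_univ, ← (isCompact_range T_cont).isClosed.closure_eq, ← dense_iff_closure_eq,
      dense_iff_inter_open]
    intro U hU h
    obtain ⟨n, a⟩ := nb hU h
    obtain ⟨J, -, c⟩ := a.exists
    have := M_ge J
    refine ⟨_, c _ _ (g0 J), e (3 * M J + n - 1), (T_e _ 1).trans (by congr 1; omega)⟩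
  · have hB := TopologicalSpace.isBasis_countableBasis (X × X)
    have : Nonempty X := ⟨e 0⟩
    have hT : Continuous (Prod.map T T) := T_cont.prodMap T_cont
    obtain ⟨p, hp⟩ := (dense_biInter_of_isOpen (f := fun V => ⋃ k, (Prod.map T T)^[k] ⁻¹' V)
      (fun V hV => isOpen_iUnion fun k => (hB.isOpen hV).preimage (hT.iterate k))
      (TopologicalSpace.countable_countableBasis (X × X))
      fun V hV => dense_iff_inter_open.2 fun U hU h => by
        obtain ⟨p, h1, k, h2⟩ := mix hU h (hB.isOpen hV)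
          (TopologicalSpace.nonempty_of_mem_countableBasis hV)
        exact ⟨p, h1, mem_iUnion.2 ⟨k, h2⟩⟩).nonempty
    refine ⟨p, hB.dense_iff.2 fun V hV _ => ?_⟩
    obtain ⟨k, hk⟩ := mem_iUnion.1 (mem_iInter₂.1 hp V hV)
    exact ⟨_, hk, k, rfl⟩
  · simpa only [T_e, zero_add] using e_dense
  · intro y hy
    have op : ∀ i, IsOpen {z : X | z.1 i = true} := fun i =>
      (isOpen_discrete {true}).preimage (ev i)
    have key : ∀ i, ∃ n, A n ∧ y.1 (i + n) = true := fun i => by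
      have := M_gt i
      obtain ⟨n, h1, h2⟩ := hy.exists_mem_open ((op 0).prod (op i))
        ⟨(e 0, e (3 * M i - i)), by simpa [e, e0] using a0, by
          simpa [e, e0, show 3 * M i - i + i = 3 * M i by omega, a0] using (g0 i).1 0 (by omega)⟩
      rw [Prod.map_iterate, Prod.map_apply] at h1 h2
      exact ⟨n, by simpa [T_it, e, e0] using h1, by simpa [T_it] using h2⟩
    obtain ⟨b, -, hb⟩ := key 0
    obtain ⟨n, h1, h2⟩ := key (0 + b + 1)
    obtain ⟨m, h3, h4⟩ := e_dense.exists_mem_open ((op _).inter (op _)) ⟨y, hb, h2⟩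
    simp only [e, e0, mem_ofPred_eq, decide_eq_true_eq] at h3 h4
    exact A_no h3 h1 h4 (by omega)

end Pool.Agent.Results.MP_a8308c_an.Yes
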